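import Mathlib
import Pool.Agent.H12.ChromAgree

set_option autoImplicit false

namespace Pool.Agent.Results.MP_64e56f_co.Quadratic

theorem result (r : ℕ) (hr : 1 ≤ r) (n : ℕ) (hn : r ≤ n) (F : Finset (SimpleGraph (Fin n)))
    (h : ∀ G ∈ F, ∀ H ∈ F, G ≠ H → ∃ s : Finset (Fin n), (symmDiff G H).IsNIndepSet r s) :
    (F.card : ℝ) ≤ 2 ^ ((n.choose 2 : ℝ) - (((r : ℝ) - 1) ^ 2 / 256 + (r - 1) / 2)) := by
  obtain ⟨T, rfl⟩ : ∃ T, r = T + 1 := ⟨r - 1, by omega⟩
  have := Pool.Agent.H12.ChromAgree.family n T F fun G hG H hH hc => by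
    by_cases e : G = H
    · subst e
      rw [symmDiff_self, compl_bot] at hc
      have h1 := hc.chromaticNumber_le
      rw [SimpleGraph.chromaticNumber_top, Fintype.card_fin] at h1
      have : n ≤ T := by exact_mod_cast h1
      omega
    · obtain ⟨s, hs⟩ := h G hG H hH e
      exact hc.cliqueFree (Nat.lt_succ_self T) s ((SimpleGraph.isNClique_compl _).2 hs)
  simpa using this

end Pool.Agent.Results.MP_64e56f_co.Quadratic
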